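import Mathlib

set_option autoImplicit false

namespace Pool.Agent.H828Z.OddCoset

open SemidirectProduct in
theorem reduction0 (S : Type) [Group S] [Finite S] (P : Subgroup S) (hP : IsPGroup 2 P)
    (hind : ¬ 2 ∣ P.index) (x : S) (hx : ∀ q ∈ P, Even (orderOf (x * q)))
    (V : Type) [CommGroup V] [Finite V] (φ : S →* MulAut V) (hV : ∀ v : V, v * v = 1)
    (t0 : V) (ht0 : t0 ≠ 1) (hst : ∀ s, φ s t0 = t0 ↔ s ∈ P) :
    ¬ (∀ (G : Type) [Group G] [Finite G] (T : Sylow 2 G) (t : G),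
      t ∈ (T : Subgroup G) →
      (∀ x ∈ (T : Subgroup G), x * t = t * x) →
      orderOf t = 2 →
      ∀ g : G, ∃ c ∈ Subgroup.centralizer ({t} : Set G), Odd (orderOf (g * c))) := by
  intro h
  have : Finite (V ⋊[φ] S) := Finite.of_equiv _ (equivProd (N := V) (G := S) (φ := φ)).symm
  have hker : IsPGroup 2 (rightHom : V ⋊[φ] S →* S).ker := by
    intro ⟨y, hy⟩
    refine ⟨1, ?_⟩
    apply Subtype.ext
    have hy' : y.right = 1 := hy
    show y ^ (2 ^ 1) = 1
    rw [pow_one, pow_two]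
    apply SemidirectProduct.ext
    · simp [hy', hV]
    · simp [hy']
  have hT : IsPGroup 2 (P.comap (rightHom : V ⋊[φ] S →* S)) := hP.comap_of_ker_isPGroup _ hker
  have hTi : ¬ 2 ∣ (P.comap (rightHom : V ⋊[φ] S →* S)).index := by
    rw [Subgroup.index_comap_of_surjective P rightHom_surjective]
    exact hind
  obtain ⟨c, hc, hodd⟩ := h (V ⋊[φ] S) (hT.toSylow hTi) (inl t0)
    (by
      show rightHom (inl t0 : V ⋊[φ] S) ∈ P
      simp)
    (by
      intro y hy
      have hy' : y.right ∈ P := hy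
      have hfix := (hst _).2 hy'
      apply SemidirectProduct.ext
      · simp [hfix, mul_comm]
      · simp)
    (by
      apply orderOf_eq_prime
      · rw [pow_two]
        apply SemidirectProduct.ext
        · simp [hV]
        · simp
      · intro h1
        apply ht0
        have := congrArg SemidirectProduct.left h1
        simpa using this)
    (inr x)
  have hc' : inl t0 * c = c * inl t0 := Subgroup.mem_centralizer_iff.1 hc _ rfl
  have hfix : φ c.right t0 = t0 := by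
    have h1 := congrArg SemidirectProduct.left hc'
    simp only [mul_left, left_inl, right_inl, map_one, MulAut.one_apply] at h1
    rw [mul_comm] at h1
    exact (mul_left_cancel h1).symm
  have hev := hx _ ((hst _).1 hfix)
  have hdvd : orderOf (rightHom (inr x * c : V ⋊[φ] S)) ∣ orderOf (inr x * c : V ⋊[φ] S) :=
    orderOf_map_dvd _ _
  have hπ : rightHom (inr x * c : V ⋊[φ] S) = x * c.right := by simp
  rw [hπ] at hdvd
  exact (Nat.not_even_iff_odd.2 hodd) ((even_iff_two_dvd.2 ((even_iff_two_dvd.1 hev).trans hdvd)))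

/-- The wreath-type reduction: a coset of a Sylow 2-subgroup with only even-order elements gives a
coset of the centraliser of a 2-central involution with only even-order elements. -/
theorem reduction (S : Type) [Group S] [Finite S] (P : Subgroup S) (hP : IsPGroup 2 P)
    (hind : ¬ 2 ∣ P.index) (x : S) (hx : ∀ q ∈ P, Even (orderOf (x * q))) :
    ¬ (∀ (G : Type) [Group G] [Finite G] (T : Sylow 2 G) (t : G),
      t ∈ (T : Subgroup G) →
      (∀ x ∈ (T : Subgroup G), x * t = t * x) →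
      orderOf t = 2 →
      ∀ g : G, ∃ c ∈ Subgroup.centralizer ({t} : Set G), Odd (orderOf (g * c))) := by
  classical
  let o : S ⧸ P := ((1 : S) : S ⧸ P)
  let e : Multiplicative (ZMod 2) := Multiplicative.ofAdd 1
  have he : e ≠ 1 := by decide
  have hstab : ∀ s : S, s • o = o ↔ s ∈ P := by
    intro s
    show ((s * 1 : S) : S ⧸ P) = ((1 : S) : S ⧸ P) ↔ _
    rw [QuotientGroup.eq]
    simp
  refine reduction0 S P hP hind x hx ((S ⧸ P) → Multiplicative (ZMod 2)) mulAutArrow ?_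
    (fun a => if a = o then e else 1) ?_ ?_
  · intro v; funext a
    have : ∀ m : Multiplicative (ZMod 2), m * m = 1 := by decide
    exact this (v a)
  · intro h2
    have := congrFun h2 o
    simp at this
    exact he this
  · intro s
    constructor
    · intro hfix
      have h1 : (if s⁻¹ • o = o then e else 1) = (if o = o then e else 1) := congrFun hfix o
      have h2 : s⁻¹ • o = o := by
        by_contra h3
        simp [h3] at h1
        exact he h1.symm
      have := (hstab _).1 h2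
      simpa using this
    · intro hs
      funext a
      show (if s⁻¹ • a = o then e else 1) = (if a = o then e else 1)
      have : (s⁻¹ • a = o) ↔ a = o := by
        rw [inv_smul_eq_iff, (hstab _).2 hs]
      simp only [this]

abbrev F := ZMod 37
abbrev Q := ℕ × ℕ × ℕ × ℕ

def mulQ (a b : Q) : Q :=
  ((a.1 * b.1 + a.2.1 * b.2.2.1) % 37, (a.1 * b.2.1 + a.2.1 * b.2.2.2) % 37,
   (a.2.2.1 * b.1 + a.2.2.2 * b.2.2.1) % 37, (a.2.2.1 * b.2.1 + a.2.2.2 * b.2.2.2) % 37)

def toQ (m : Matrix (Fin 2) (Fin 2) F) : Q := ((m 0 0).val, (m 0 1).val, (m 1 0).val, (m 1 1).val)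

def ofQ (a : Q) : Matrix (Fin 2) (Fin 2) F := !![a.1, a.2.1; a.2.2.1, a.2.2.2]

def oneQ : Q := (1, 0, 0, 1)

def small (a : Q) : Prop := a.1 < 37 ∧ a.2.1 < 37 ∧ a.2.2.1 < 37 ∧ a.2.2.2 < 37

theorem toQ_mul (m n : Matrix (Fin 2) (Fin 2) F) : toQ (m * n) = mulQ (toQ m) (toQ n) := by
  simp [toQ, mulQ, Matrix.mul_apply, Fin.sum_univ_two, ZMod.val_add, ZMod.val_mul]

theorem toQ_one : toQ 1 = oneQ := by
  simp [toQ, oneQ]
  rfl

theorem toQ_ofQ (a : Q) (h : small a) : toQ (ofQ a) = a := by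
  obtain ⟨h1, h2, h3, h4⟩ := h
  simp [toQ, ofQ, Nat.mod_eq_of_lt h1, Nat.mod_eq_of_lt h2, Nat.mod_eq_of_lt h3,
    Nat.mod_eq_of_lt h4]

theorem toQ_inj : Function.Injective toQ := by
  intro m n h
  simp only [toQ, Prod.mk.injEq] at h
  obtain ⟨h1, h2, h3, h4⟩ := h
  ext i j
  fin_cases i <;> fin_cases j <;> apply ZMod.val_injective <;> assumption

def eqQ (a b : Q) : Bool :=
  Nat.beq a.1 b.1 && Nat.beq a.2.1 b.2.1 && Nat.beq a.2.2.1 b.2.2.1 && Nat.beq a.2.2.2 b.2.2.2

theorem eqQ_iff (a b : Q) : eqQ a b = true ↔ a = b := by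
  obtain ⟨a1, a2, a3, a4⟩ := a
  obtain ⟨b1, b2, b3, b4⟩ := b
  simp [eqQ, and_assoc]

def sq (a : Q) : Q := mulQ a a

def p171 (y : Q) : Q :=
  mulQ (sq (mulQ (sq (sq (mulQ (sq (sq (mulQ (sq (sq y)) y))) y))) y)) y

def mu : List ℕ := [1, 6, 36, 31]

def L : List Q := mu.flatMap fun a => mu.flatMap fun b => [(a, 0, 0, b), (0, a, b, 0)]

def xQ : Q := (2, 10, 14, 15)

theorem L_mul' : (L.all fun a => L.all fun b => L.any fun c => eqQ c (mulQ a b)) = true := by
  decide +kernel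
theorem L_mul : ∀ a ∈ L, ∀ b ∈ L, mulQ a b ∈ L := by
  have := L_mul'
  simp only [List.all_eq_true, List.any_eq_true, eqQ_iff] at this
  intro a ha b hb
  obtain ⟨c, hc, h⟩ := this a ha b hb
  exact h ▸ hc
theorem L_one : oneQ ∈ L := by decide +kernel
theorem L_small : ∀ a ∈ L, small a := by
  unfold small
  decide +kernel
theorem L_inv' : (L.all fun a => L.any fun b => eqQ (mulQ a b) oneQ && eqQ (mulQ b a) oneQ)
    = true := by decide +kernel
theorem L_inv : ∀ a ∈ L, ∃ b ∈ L, mulQ a b = oneQ ∧ mulQ b a = oneQ := by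
  have := L_inv'
  simpa only [List.all_eq_true, List.any_eq_true, eqQ_iff, Bool.and_eq_true] using this
theorem L_card : L.toFinset.card = 32 := by decide +kernel
theorem L_x' : (L.all fun a => !(eqQ (p171 (mulQ xQ a)) oneQ) &&
    eqQ (sq (sq (sq (p171 (mulQ xQ a))))) oneQ) = true := by decide +kernel
theorem L_x : ∀ a ∈ L, p171 (mulQ xQ a) ≠ oneQ ∧ sq (sq (sq (p171 (mulQ xQ a)))) = oneQ := by
  have := L_x'
  simp only [List.all_eq_true, eqQ_iff, Bool.and_eq_true, Bool.not_eq_true'] at this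
  intro a ha
  obtain ⟨h1, h2⟩ := this a ha
  refine ⟨fun h => ?_, h2⟩
  rw [(eqQ_iff _ _).2 h] at h1
  exact Bool.noConfusion h1

instance : Fact (Nat.Prime 37) := ⟨by norm_num⟩

abbrev S := GL (Fin 2) F

def τ (g : S) : Q := toQ (g : Matrix (Fin 2) (Fin 2) F)

theorem τ_mul (g h : S) : τ (g * h) = mulQ (τ g) (τ h) := by simp [τ, toQ_mul]
theorem τ_one : τ 1 = oneQ := by simp [τ, toQ_one]
theorem τ_inj : Function.Injective τ := fun _ _ h => Units.ext (toQ_inj h)
theorem τ_sq (g : S) : τ (g ^ 2) = sq (τ g) := by rw [pow_two, τ_mul, sq]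
theorem τ_171 (g : S) : τ (g ^ 171) = p171 (τ g) := by
  have : g ^ 171 = (((((((g ^ 2) ^ 2 * g) ^ 2) ^ 2 * g) ^ 2) ^ 2 * g) ^ 2) * g := by
    simp only [← pow_mul, ← pow_succ]
  rw [this]
  simp only [τ_mul, τ_sq, p171]
theorem τ_8 (g : S) : τ (g ^ 8) = sq (sq (sq (τ g))) := by
  have : g ^ 8 = ((g ^ 2) ^ 2) ^ 2 := by simp only [← pow_mul]
  rw [this]
  simp only [τ_sq]

def mk (a b : Q) (ha : small a) (hb : small b) (h1 : mulQ a b = oneQ) (h2 : mulQ b a = oneQ) : S :=
  ⟨ofQ a, ofQ b, toQ_inj (by rw [toQ_mul, toQ_ofQ _ ha, toQ_ofQ _ hb, h1, toQ_one]),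
    toQ_inj (by rw [toQ_mul, toQ_ofQ _ ha, toQ_ofQ _ hb, h2, toQ_one])⟩

theorem τ_mk (a b : Q) (ha hb h1 h2) : τ (mk a b ha hb h1 h2) = a := toQ_ofQ a ha

def P : Subgroup S where
  carrier := {g | τ g ∈ L}
  mul_mem' := fun {a b} ha hb => by
    show τ (a * b) ∈ L
    rw [τ_mul]; exact L_mul _ ha _ hb
  one_mem' := by
    show τ 1 ∈ L
    rw [τ_one]; exact L_one
  inv_mem' := fun {a} ha => by
    obtain ⟨b, hb, h1, h2⟩ := L_inv _ ha
    have h3 : a * mk b _ (L_small _ hb) (L_small _ ha) h2 h1 = 1 := by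
      apply τ_inj
      rw [τ_mul, τ_mk, h1, τ_one]
    show τ a⁻¹ ∈ L
    rw [inv_eq_of_mul_eq_one_right h3, τ_mk]; exact hb

theorem card_P : Nat.card P = 32 := by
  rw [← L_card, ← Nat.card_eq_finsetCard]
  refine Nat.card_congr (Equiv.ofBijective
    (fun g : P => (⟨τ g.1, List.mem_toFinset.2 g.2⟩ : L.toFinset)) ⟨?_, ?_⟩)
  · intro a b h
    exact Subtype.ext (τ_inj (congrArg Subtype.val h))
  · rintro ⟨a, ha⟩
    have ha' := List.mem_toFinset.1 ha
    obtain ⟨b, hb, h1, h2⟩ := L_inv _ ha'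
    exact ⟨⟨mk a b (L_small _ ha') (L_small _ hb) h1 h2, by show τ _ ∈ L; rw [τ_mk]; exact ha'⟩,
      Subtype.ext (τ_mk a b (L_small _ ha') (L_small _ hb) h1 h2)⟩

theorem card_S : Nat.card S = 32 * 56943 := by
  rw [Matrix.card_GL_field]
  simp [Fin.prod_univ_two, ZMod.card]

theorem main :
    ¬ (∀ (G : Type) [Group G] [Finite G] (T : Sylow 2 G) (t : G),
      t ∈ (T : Subgroup G) →
      (∀ x ∈ (T : Subgroup G), x * t = t * x) →
      orderOf t = 2 →
      ∀ g : G, ∃ c ∈ Subgroup.centralizer ({t} : Set G), Odd (orderOf (g * c))) := by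
  let x : S := mk xQ (15, 27, 23, 2) (by simp [small, xQ]) (by simp [small]) (by decide) (by decide)
  refine reduction S P (IsPGroup.of_card (n := 5) (by rw [card_P]; rfl)) ?_ x ?_
  · have h := P.card_mul_index
    rw [card_P, card_S] at h
    have : P.index = 56943 := by omega
    rw [this]; norm_num
  · intro q hq
    obtain ⟨h1, h2⟩ := L_x _ hq
    have hτ : τ (x * q) = mulQ xQ (τ q) := by rw [τ_mul]; simp only [x, τ_mk]
    rw [← hτ, ← τ_171] at h1 h2
    rw [← τ_8, ← τ_one, ← pow_mul] at h2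
    rw [← τ_one] at h1
    have h3 := orderOf_dvd_of_pow_eq_one (τ_inj h2)
    by_contra hodd
    rw [Nat.not_even_iff_odd] at hodd
    have hcop : Nat.Coprime (orderOf (x * q)) 8 := by
      have : Nat.Coprime (orderOf (x * q)) 2 := (Nat.coprime_two_right).2 hodd
      exact Nat.Coprime.pow_right 3 this
    have h4 : orderOf (x * q) ∣ 171 := hcop.dvd_of_dvd_mul_right h3
    exact h1 (congrArg τ (orderOf_dvd_iff_pow_eq_one.1 h4))

end Pool.Agent.H828Z.OddCoset
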